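import Mathlib
import Pool.Agent.NPC.Sat
import Pool.Agent.H671R2.PolyAuto

set_option autoImplicit false

/-!
# 3SAT with small variables
-/

namespace Pool.Agent.X130

open Pool.Agent.NPC

/-- formulas with three literals per clause -/
abbrev F3 : Type := List (Lit ℕ × Lit ℕ × Lit ℕ)

/-- the variables are less than three times the number of clauses -/
def Small (φ : F3) : Prop := ∀ c ∈ φ, c.1.2 < 3 * φ.length ∧ c.2.1.2 < 3 * φ.length ∧
  c.2.2.2 < 3 * φ.length

theorem small_ren3 (φ : F3) : Small (ren3 φ) := by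
  intro c hc
  have hlen : (ren3 φ).length = φ.length := by simp [ren3]
  have hv : (vars3 φ).length = 3 * φ.length := by
    unfold vars3
    rw [List.length_flatMap]
    simp
    ring
  have hidx : ∀ v ∈ vars3 φ, index (vars3 φ) v < 3 * (ren3 φ).length := by
    intro v hv'
    have h1 := getElem?_index hv'
    rw [hlen, ← hv]
    by_contra hcon
    rw [List.getElem?_eq_none (not_lt.1 hcon)] at h1
    exact absurd h1 (by simp)
  unfold ren3 at hc
  rw [List.mem_map] at hc
  obtain ⟨d, hd, rfl⟩ := hc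
  obtain ⟨h1, h2, h3⟩ := mem_vars3 hd
  exact ⟨hidx _ h1, hidx _ h2, hidx _ h3⟩

theorem hardPr_small : HardPr (fun φ : F3 => Small φ ∧ Distinct3 φ) SAT3 :=
  hardPr_SAT3.trans ren3_poly
    (fun φ h => ⟨small_ren3 φ, ren3_distinct h⟩) (fun φ _ => ren3_sat φ)

end Pool.Agent.X130
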