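import Mathlib
import Pool.Agent.Y592.OP.NPMem

set_option autoImplicit false

/-!
# Utilities for membership in NP
-/

namespace Pool.Agent.X130

open Pool.Agent.NPC

theorem pp_imp {α : Type} [TEnc α] {p q : α → Prop} (hp : PP p) (hq : PP q) :
    PP (fun a => p a → q a) := (PP.or (PP.not hp) hq).congr fun a => by tauto

theorem pp_iff {α : Type} [TEnc α] {p q : α → Prop} (hp : PP p) (hq : PP q) :
    PP (fun a => p a ↔ q a) := (PP.and (pp_imp hp hq) (pp_imp hq hp)).congr fun a => by tauto

/-- A list without repetitions from `V` is short. -/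
theorem sz_sub {β : Type} [TEnc β] {w V : List β} (hw : w.Nodup)
    (h : ∀ v ∈ w, v ∈ V) {s : ℕ} (hs : sz V ≤ s) : sz w ≤ s * (s + 1) + 1 := by
  classical
  have h1 : w.length ≤ V.length := (hw.subperm h).length_le
  have h2 := length_lt_sz V
  have h3 := sz_le_length_mul w s fun v hv => by
    have := sz_le_of_mem (h v hv)
    omega
  have h4 : w.length * (s + 1) ≤ s * (s + 1) := Nat.mul_le_mul_right _ (by omega)
  omega

end Pool.Agent.X130
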