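import Mathlib
import Pool.Agent.H634R2.Clique
import Pool.Agent.X130.Util

set_option autoImplicit false

/-!
# Vertex cover is NP-hard
-/

namespace Pool.Agent.X130

open Pool.Agent.NPC Pool.Agent.NPC.H634R2

/-- Vertex cover on simple graphs given by lists. -/
def VC (I : (List ℕ × List (ℕ × ℕ)) × ℕ) : Prop :=
  ∃ C : Finset ℕ, (∀ v ∈ C, v ∈ I.1.1) ∧ C.card ≤ I.2 ∧ ∀ e ∈ I.1.2, e.1 ∈ C ∨ e.2 ∈ C

/-- the complement graph -/
def coE (V : List ℕ) (E : List (ℕ × ℕ)) : List (ℕ × ℕ) :=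
  V.flatMap (fun u => (V.filter (fun v => decide (u < v ∧ (u, v) ∉ E ∧ (v, u) ∉ E))).map
    (fun v => (u, v)))

theorem mem_coE {V : List ℕ} {E : List (ℕ × ℕ)} {a b : ℕ} :
    (a, b) ∈ coE V E ↔ a ∈ V ∧ b ∈ V ∧ a < b ∧ (a, b) ∉ E ∧ (b, a) ∉ E := by
  unfold coE
  simp only [List.mem_flatMap, List.mem_map, List.mem_filter, decide_eq_true_eq, Prod.mk.injEq]
  constructor
  · rintro ⟨u, hu, v, ⟨hv, h⟩, rfl, rfl⟩
    exact ⟨hu, hv, h⟩
  · rintro ⟨hu, hv, h⟩
    exact ⟨a, hu, b, ⟨hv, h⟩, rfl, rfl⟩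

theorem isGraph_coE {V : List ℕ} {E : List (ℕ × ℕ)} (hV : V.Nodup) : IsGraph V (coE V E) := by
  refine ⟨hV, ?_, ?_⟩
  · rintro ⟨a, b⟩ he
    rw [mem_coE] at he
    exact ⟨he.1, he.2.1, by simp only; omega⟩
  · refine List.Nodup.map_on ?_ ?_
    · rintro ⟨a, b⟩ he ⟨a', b'⟩ he' h
      rw [mem_coE] at he he'
      simp only [Sym2.eq_iff] at h
      rw [Prod.mk.injEq]
      omega
    · unfold coE
      rw [List.nodup_flatMap]
      refine ⟨fun u _ => (hV.filter _).map (fun a b h => by simp only [Prod.mk.injEq] at h; exact h.2), ?_⟩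
      refine hV.imp ?_
      intro a b hab x hx hx'
      simp only [List.mem_map] at hx hx'
      obtain ⟨y, _, rfl⟩ := hx
      obtain ⟨z, _, h⟩ := hx'
      simp only [Prod.mk.injEq] at h
      exact hab h.1.symm

/-- from cliques to vertex covers of the complement -/
def toVC (I : (List ℕ × List (ℕ × ℕ)) × ℕ) : (List ℕ × List (ℕ × ℕ)) × ℕ :=
  if I.2 ≤ I.1.1.length then ((I.1.1, coE I.1.1 I.1.2), I.1.1.length - I.2)
  else (([0, 1], [(0, 1)]), 0)

theorem toVC_poly : NPC.Poly toVC := by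
  unfold toVC coE
  fun_prop

theorem toVC_correct (I : (List ℕ × List (ℕ × ℕ)) × ℕ) (hI : IsGraph I.1.1 I.1.2 ∧ 2 ≤ I.2) :
    CLIQUE I ↔ VC (toVC I) := by
  classical
  obtain ⟨⟨V, E⟩, k⟩ := I
  obtain ⟨hG, -⟩ := hI
  simp only at hG
  unfold CLIQUE toVC VC HasClique
  simp only
  split_ifs with hk
  · constructor
    · rintro ⟨-, K, hKV, hKc, hK⟩
      refine ⟨V.toFinset \ K, fun v hv => List.mem_toFinset.1 (Finset.mem_sdiff.1 hv).1, ?_, ?_⟩
      · rw [Finset.card_sdiff_of_subset (fun v hv => List.mem_toFinset.2 (hKV v hv)),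
          List.toFinset_card_of_nodup hG.1, hKc]
      · rintro ⟨a, b⟩ he
        rw [mem_coE] at he
        simp only [Finset.mem_sdiff, List.mem_toFinset, he.1, he.2.1, true_and]
        by_contra hcon
        push Not at hcon
        rcases hK a hcon.1 b hcon.2 (by omega) with h | h
        · exact he.2.2.2.1 h
        · exact he.2.2.2.2 h
    · rintro ⟨C, hCV, hCc, hC⟩
      have h1 : k ≤ (V.toFinset \ C).card := by
        rw [Finset.card_sdiff_of_subset (fun v hv => List.mem_toFinset.2 (hCV v hv)),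
          List.toFinset_card_of_nodup hG.1]
        omega
      obtain ⟨K, hK1, hK2⟩ := Finset.exists_subset_card_eq h1
      refine ⟨hG, K, fun v hv => List.mem_toFinset.1 (Finset.mem_sdiff.1 (hK1 hv)).1, hK2, ?_⟩
      intro u hu v hv hne
      have hu' := Finset.mem_sdiff.1 (hK1 hu)
      have hv' := Finset.mem_sdiff.1 (hK1 hv)
      by_contra hcon
      push Not at hcon
      rcases Nat.lt_or_gt_of_ne hne with h | h
      · rcases hC (u, v) (mem_coE.2 ⟨List.mem_toFinset.1 hu'.1, List.mem_toFinset.1 hv'.1, h, hcon.1,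
          hcon.2⟩) with h2 | h2
        · exact hu'.2 h2
        · exact hv'.2 h2
      · rcases hC (v, u) (mem_coE.2 ⟨List.mem_toFinset.1 hv'.1, List.mem_toFinset.1 hu'.1, h, hcon.2,
          hcon.1⟩) with h2 | h2
        · exact hv'.2 h2
        · exact hu'.2 h2
  · constructor
    · rintro ⟨-, K, hKV, hKc, -⟩
      exfalso
      apply hk
      have h1 : K ⊆ V.toFinset := fun v hv => List.mem_toFinset.2 (hKV v hv)
      have h2 := (Finset.card_le_card h1).trans (List.toFinset_card_le _)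
      omega
    · rintro ⟨C, -, hCc, hC⟩
      exfalso
      have h1 : C = ∅ := Finset.card_eq_zero.1 (by omega)
      subst h1
      simpa using hC (0, 1) (by simp)

/-- Vertex cover is hard, with the promise that the data describe a simple graph and that the bound is
at most the number of vertices. -/
theorem hardPr_VC : HardPr (fun I : (List ℕ × List (ℕ × ℕ)) × ℕ => IsGraph I.1.1 I.1.2 ∧
    I.2 ≤ I.1.1.length) VC := by
  refine hardPr_CLIQUE.trans toVC_poly ?_ toVC_correct
  rintro ⟨⟨V, E⟩, k⟩ ⟨hG, -⟩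
  unfold toVC
  simp only at hG ⊢
  split_ifs with hk
  · exact ⟨isGraph_coE hG.1, by simp⟩
  · simp [IsGraph]

end Pool.Agent.X130
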