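import Mathlib
import Pool.Agent.X130.VC

set_option autoImplicit false

/-!
# Graphs given by a relation on a list of vertices
-/

namespace Pool.Agent.X130

open Pool.Agent.NPC Pool.Agent.NPC.H634R2

/-- the list of the pairs `(a, b)` of elements of `V` with `a < b` and `R a b` -/
def relE (V : List ℕ) (R : ℕ → ℕ → Bool) : List (ℕ × ℕ) :=
  V.flatMap (fun u => (V.filter (fun v => decide (u < v) && R u v)).map (fun v => (u, v)))

theorem mem_relE {V : List ℕ} {R : ℕ → ℕ → Bool} {a b : ℕ} :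
    (a, b) ∈ relE V R ↔ a ∈ V ∧ b ∈ V ∧ a < b ∧ R a b = true := by
  unfold relE
  simp only [List.mem_flatMap, List.mem_map, List.mem_filter, Bool.and_eq_true, decide_eq_true_eq,
    Prod.mk.injEq]
  constructor
  · rintro ⟨u, hu, v, ⟨hv, h⟩, rfl, rfl⟩
    exact ⟨hu, hv, h⟩
  · rintro ⟨hu, hv, h⟩
    exact ⟨a, hu, b, ⟨hv, h⟩, rfl, rfl⟩

theorem isGraph_relE {V : List ℕ} {R : ℕ → ℕ → Bool} (hV : V.Nodup) : IsGraph V (relE V R) := by
  refine ⟨hV, ?_, ?_⟩
  · rintro ⟨a, b⟩ he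
    rw [mem_relE] at he
    exact ⟨he.1, he.2.1, by simp only; omega⟩
  · refine List.Nodup.map_on ?_ ?_
    · rintro ⟨a, b⟩ he ⟨a', b'⟩ he' h
      rw [mem_relE] at he he'
      simp only [Sym2.eq_iff] at h
      rw [Prod.mk.injEq]
      omega
    · unfold relE
      rw [List.nodup_flatMap]
      refine ⟨fun u _ => (hV.filter _).map (fun a b h => by simp only [Prod.mk.injEq] at h; exact h.2), ?_⟩
      refine hV.imp ?_
      intro a b hab x hx hx'
      simp only [List.mem_map] at hx hx'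
      obtain ⟨y, _, rfl⟩ := hx
      obtain ⟨z, _, h⟩ := hx'
      simp only [Prod.mk.injEq] at h
      exact hab h.1.symm

theorem relE_poly {α : Type} [TEnc α] {V : α → List ℕ} {R : α → ℕ → ℕ → Bool} (hV : NPC.Poly V)
    (hR : NPC.Poly (fun x : (α × ℕ) × ℕ => R x.1.1 x.1.2 x.2)) :
    NPC.Poly (fun a => relE (V a) (R a)) := by
  unfold relE
  refine NPC.Poly.flatMap (F := fun a u => ((V a).filter (fun v => decide (u < v) && R a u v)).map
    (fun v => (u, v))) hV ?_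
  refine NPC.Poly.map (F := fun (x : α × ℕ) v => (x.2, v)) ?_ (by fun_prop)
  refine NPC.Poly.filter (p := fun (x : α × ℕ) v => decide (x.2 < v) && R x.1 x.2 v) (by fun_prop) ?_
  exact NPC.Poly.and (by fun_prop) hR

/-- the simple graph on the natural numbers given by a list of edges -/
def toG (E : List (ℕ × ℕ)) : SimpleGraph ℕ where
  Adj x y := x ≠ y ∧ ((x, y) ∈ E ∨ (y, x) ∈ E)
  symm := ⟨fun _ _ h => ⟨h.1.symm, h.2.symm⟩⟩
  loopless := ⟨fun _ h => h.1 rfl⟩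

theorem adj_relE {V : List ℕ} {R : ℕ → ℕ → Bool} (hR : ∀ a b, R a b = R b a) {x y : ℕ} :
    (toG (relE V R)).Adj x y ↔ x ∈ V ∧ y ∈ V ∧ x ≠ y ∧ R x y = true := by
  change (x ≠ y ∧ ((x, y) ∈ relE V R ∨ (y, x) ∈ relE V R)) ↔ _
  rw [mem_relE, mem_relE, hR y x]
  constructor
  · rintro ⟨h, h' | h'⟩
    · exact ⟨h'.1, h'.2.1, h, h'.2.2.2⟩
    · exact ⟨h'.2.1, h'.1, h, h'.2.2.2⟩
  · rintro ⟨h1, h2, h3, h4⟩
    refine ⟨h3, ?_⟩
    rcases Nat.lt_or_gt_of_ne h3 with h | h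
    · exact Or.inl ⟨h1, h2, h, h4⟩
    · exact Or.inr ⟨h2, h1, h, h4⟩

end Pool.Agent.X130
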