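import Mathlib
import Pool.Agent.H648R3.WC.Nae
import Pool.Agent.H671R2.PolyAuto

set_option autoImplicit false

/-!
# Monotone not-all-equal 3SAT with small variables
-/

namespace Pool.Agent.X130

open Pool.Agent.NPC Pool.Agent.NPC.WC648

/-- Not-all-equal satisfiability of monotone clauses with three (not necessarily distinct)
variables. -/
def NAEN (φ : List (ℕ × ℕ × ℕ)) : Prop :=
  ∃ τ : ℕ → Bool, ∀ t ∈ φ, ¬ (τ t.1 = τ t.2.1 ∧ τ t.2.1 = τ t.2.2)

/-- the variables are less than three times the number of clauses -/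
def SmallN (φ : List (ℕ × ℕ × ℕ)) : Prop := ∀ t ∈ φ, t.1 < 3 * φ.length ∧
  t.2.1 < 3 * φ.length ∧ t.2.2 < 3 * φ.length

/-- the variables -/
def varsN (φ : List (NV × NV × NV)) : List NV := φ.flatMap (fun c => [c.1, c.2.1, c.2.2])

/-- renaming -/
noncomputable def renN (φ : List (NV × NV × NV)) : List (ℕ × ℕ × ℕ) :=
  φ.map (fun c => (index (varsN φ) c.1, index (varsN φ) c.2.1, index (varsN φ) c.2.2))

theorem mem_varsN {φ : List (NV × NV × NV)} {c} (hc : c ∈ φ) :
    c.1 ∈ varsN φ ∧ c.2.1 ∈ varsN φ ∧ c.2.2 ∈ varsN φ := by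
  simp only [varsN, List.mem_flatMap]
  exact ⟨⟨c, hc, by simp⟩, ⟨c, hc, by simp⟩, ⟨c, hc, by simp⟩⟩

theorem renN_sat (φ : List (NV × NV × NV)) : NAE φ ↔ NAEN (renN φ) := by
  classical
  constructor
  · rintro ⟨τ, hτ⟩
    refine ⟨fun n => match (varsN φ)[n]? with
      | none => false
      | some v => τ v, ?_⟩
    intro c hc
    unfold renN at hc
    rw [List.mem_map] at hc
    obtain ⟨d, hd, rfl⟩ := hc
    obtain ⟨h1, h2, h3⟩ := mem_varsN hd
    simp only [getElem?_index h1, getElem?_index h2, getElem?_index h3]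
    exact hτ d hd
  · rintro ⟨τ, hτ⟩
    refine ⟨fun v => τ (index (varsN φ) v), ?_⟩
    intro c hc
    exact hτ _ (List.mem_map.2 ⟨c, hc, rfl⟩)

theorem small_renN (φ : List (NV × NV × NV)) : SmallN (renN φ) := by
  intro c hc
  have hlen : (renN φ).length = φ.length := by simp [renN]
  have hv : (varsN φ).length = 3 * φ.length := by
    unfold varsN
    rw [List.length_flatMap]
    simp
    ring
  have hidx : ∀ v ∈ varsN φ, index (varsN φ) v < 3 * (renN φ).length := by
    intro v hv'
    have h1 := getElem?_index hv'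
    rw [hlen, ← hv]
    by_contra hcon
    rw [List.getElem?_eq_none (not_lt.1 hcon)] at h1
    exact absurd h1 (by simp)
  unfold renN at hc
  rw [List.mem_map] at hc
  obtain ⟨d, hd, rfl⟩ := hc
  obtain ⟨h1, h2, h3⟩ := mem_varsN hd
  exact ⟨hidx _ h1, hidx _ h2, hidx _ h3⟩

theorem renN_poly : Poly renN := by
  have hv : Poly varsN := by
    unfold varsN
    fun_prop
  have hv' : Poly (fun x : List (NV × NV × NV) × (NV × NV × NV) => varsN x.1) :=
    hv.comp (Poly.fst Poly.id)
  refine NPC.Poly.map (F := fun φ (c : NV × NV × NV) => (index (varsN φ) c.1,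
    index (varsN φ) c.2.1, index (varsN φ) c.2.2)) NPC.Poly.id ?_
  refine Poly.pair (Poly.index hv' (by fun_prop)) (Poly.pair (Poly.index hv' (by fun_prop))
    (Poly.index hv' (by fun_prop)))

theorem hardPr_NAEN : HardPr SmallN NAEN :=
  hardI_NAE.toHardPr.trans renN_poly (fun φ _ => small_renN φ) (fun φ _ => renN_sat φ)

end Pool.Agent.X130
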