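import Mathlib
import Pool.Agent.H692R2.Col
import Pool.Agent.H671R2.PolyAuto

set_option autoImplicit false

/-!
# 3-colourability of graphs with small vertices
-/

namespace Pool.Agent.X130

open Pool.Agent.NPC Pool.Agent.H692R2

/-- the vertices are less than twice the number of edges -/
def SmallE (E : List (ℕ × ℕ)) : Prop := ∀ e ∈ E, e.1 < 2 * E.length ∧ e.2 < 2 * E.length

/-- the endpoints -/
def ptsE (E : List (ℕ × ℕ)) : List ℕ := E.flatMap (fun e => [e.1, e.2])

/-- renaming -/
noncomputable def renE (E : List (ℕ × ℕ)) : List (ℕ × ℕ) :=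
  E.map (fun e => (index (ptsE E) e.1, index (ptsE E) e.2))

theorem mem_ptsE {E : List (ℕ × ℕ)} {e} (he : e ∈ E) : e.1 ∈ ptsE E ∧ e.2 ∈ ptsE E := by
  simp only [ptsE, List.mem_flatMap]
  exact ⟨⟨e, he, by simp⟩, ⟨e, he, by simp⟩⟩

theorem renE_col (k : ℕ) [NeZero k] (E : List (ℕ × ℕ)) : Col k E ↔ Col k (renE E) := by
  classical
  constructor
  · rintro ⟨τ, hτ⟩
    refine ⟨fun n => match (ptsE E)[n]? with
      | none => 0
      | some v => τ v, ?_⟩
    intro c hc
    unfold renE at hc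
    rw [List.mem_map] at hc
    obtain ⟨d, hd, rfl⟩ := hc
    obtain ⟨h1, h2⟩ := mem_ptsE hd
    simp only [getElem?_index h1, getElem?_index h2]
    exact hτ d hd
  · rintro ⟨τ, hτ⟩
    refine ⟨fun v => τ (index (ptsE E) v), ?_⟩
    intro c hc
    exact hτ _ (List.mem_map.2 ⟨c, hc, rfl⟩)

theorem small_renE (E : List (ℕ × ℕ)) : SmallE (renE E) := by
  intro c hc
  have hlen : (renE E).length = E.length := by simp [renE]
  have hv : (ptsE E).length = 2 * E.length := by
    unfold ptsE
    rw [List.length_flatMap]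
    simp
    ring
  have hidx : ∀ v ∈ ptsE E, index (ptsE E) v < 2 * (renE E).length := by
    intro v hv'
    have h1 := getElem?_index hv'
    rw [hlen, ← hv]
    by_contra hcon
    rw [List.getElem?_eq_none (not_lt.1 hcon)] at h1
    exact absurd h1 (by simp)
  unfold renE at hc
  rw [List.mem_map] at hc
  obtain ⟨d, hd, rfl⟩ := hc
  obtain ⟨h1, h2⟩ := mem_ptsE hd
  exact ⟨hidx _ h1, hidx _ h2⟩

theorem loopless_renE {E : List (ℕ × ℕ)} (h : Loopless E) : Loopless (renE E) := by
  intro c hc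
  unfold renE at hc
  rw [List.mem_map] at hc
  obtain ⟨d, hd, rfl⟩ := hc
  obtain ⟨h1, h2⟩ := mem_ptsE hd
  exact fun he => h d hd (index_inj h1 h2 he)

theorem renE_poly : NPC.Poly renE := by
  have hv : NPC.Poly ptsE := by
    unfold ptsE
    fun_prop
  have hv' : NPC.Poly (fun x : List (ℕ × ℕ) × (ℕ × ℕ) => ptsE x.1) := hv.comp (by fun_prop)
  refine NPC.Poly.map (F := fun φ (c : ℕ × ℕ) => (index (ptsE φ) c.1, index (ptsE φ) c.2))
    NPC.Poly.id ?_
  refine NPC.Poly.pair (NPC.Poly.index hv' (by fun_prop)) (NPC.Poly.index hv' (by fun_prop))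

theorem hardPr_col3s : HardPr (fun E => Loopless E ∧ SmallE E) (Col 3) :=
  hardPr_col3.trans renE_poly (fun E h => ⟨loopless_renE h, small_renE E⟩)
    (fun E _ => renE_col 3 E)

end Pool.Agent.X130
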